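import Mathlib

open Set Cardinal Ordinal

namespace Pool.Agent.Results.MP_ebc4cb_lc.Beth

/-- `P` is the vertex set of a transfinite path all of whose edges have colour `i`: there is a
well-order `r` of `P` such that for each `v ∈ P` the `i`-neighbours of `v` preceding `v` are
cofinal in the predecessors of `v`. -/
def IsPath {V : Type} (c : Sym2 V → ℕ) (i : ℕ) (P : Set V) : Prop :=
  ∃ r : P → P → Prop, IsWellOrder P r ∧
    ∀ v u : P, r u v → ∃ w : P, (w = u ∨ r u w) ∧ r w v ∧ c s(w.1, v.1) = i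

/-- `κ` belongs to the class `ℙ`. -/
def InP (κ : Cardinal.{0}) : Prop :=
  ℵ₀ ≤ κ ∧ ∀ V : Type, #V = κ → ∀ c : Sym2 V → ℕ, ∃ (i : ℕ) (P : Set V), #P = κ ∧ IsPath c i P

theorem index {M : Type} [LinearOrder M] (hM : ∀ s : Set M, #s ≤ ℵ₁ → ∃ b, ∀ x ∈ s, x < b)
    (D : M → M → ℕ) (hD : ∀ a b, D a b = D b a) :
    ∃ r i, ∀ α, ∃ s t, α < s ∧ α < t ∧ s ≠ t ∧ D r s = i ∧ D s t = i := by
  by_contra hc
  push Not at hc
  choose f hf using hc
  choose F hF using fun r => hM (insert r (range (f r))) ((le_aleph0_iff_set_countable.2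
    ((countable_range _).insert r)).trans aleph0_lt_aleph_one.le)
  let R : M → M → Prop := fun r r' => F r < r'
  have hmax := maxChain_spec (r := R)
  have bd : ∀ S : Set M, #S ≤ ℵ₁ → ∃ b, ∀ x ∈ S, F x < b := fun S hS => by
    obtain ⟨b, hb⟩ := hM (F '' S) (mk_image_le.trans hS)
    exact ⟨b, fun x hx => hb _ (mem_image_of_mem _ hx)⟩
  have h1 : ¬ #(maxChain R) ≤ ℵ₁ := fun h => by
    obtain ⟨b, hb⟩ := bd _ h
    have := hmax.2 (hmax.1.insert (a := b) fun x hx _ => Or.inr (hb x hx)) (subset_insert _ _)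
    have hb' : b ∈ maxChain R := this ▸ mem_insert _ _
    exact lt_asymm (hb b hb') (hF b b (Or.inl rfl))
  obtain ⟨T, hT, hT'⟩ := le_mk_iff_exists_subset.1 (not_le.1 h1).le
  obtain ⟨s, hs⟩ := bd T hT'.le
  have key : ∀ x ∈ T, ∀ y ∈ T, R x y → D x s ≠ D y s := fun x hx y hy h e =>
    hf x (D x s) s y ((hF x _ (Or.inr ⟨_, rfl⟩)).trans (hs x hx))
      ((hF x _ (Or.inr ⟨_, rfl⟩)).trans h) ((hF y y (Or.inl rfl)).trans (hs y hy)).ne' rfl
      ((hD _ _).trans e.symm)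
  have h2 : InjOn (fun x => D x s) T := fun x hx y hy e => by_contra fun hne =>
    (hmax.1 (hT hx) (hT hy) hne).elim (key x hx y hy · e) (key y hy x hx · e.symm)
  have := le_aleph0_iff_set_countable.2 (countable_of_injective_of_countable_image h2 (to_countable _))
  exact aleph0_lt_aleph_one.not_ge (hT' ▸ this)

theorem pig {μ : Cardinal.{0}} (hμ : ℵ₀ ≤ μ) {X Y : Type} (hY : #Y ≤ μ) {T : Set X}
    (hT : 2 ^ μ < #T) (f : X → Y → ℕ) :
    ∃ T' ⊆ T, 2 ^ μ < #T' ∧ ∀ x ∈ T', ∀ y ∈ T', f x = f y := by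
  have h1 : ¬ ∀ v, #{x | x ∈ T ∧ f x = v} ≤ 2 ^ μ := fun hc => by
    refine hT.not_ge ((mk_le_mk_of_subset (t := ⋃ v, {x | x ∈ T ∧ f x = v})
      fun x hx => mem_iUnion.2 ⟨_, hx, rfl⟩).trans ((mk_iUnion_le _).trans
      ((mul_le_mul' ?_ (ciSup_le' hc)).trans (mul_eq_self (hμ.trans (cantor μ).le)).le)))
    rw [← power_def, mk_nat, ← power_eq_two_power hμ (nat_lt_aleph0 2).le hμ]
    exact power_le_power_left aleph0_ne_zero hY
  push Not at h1
  obtain ⟨v, hv⟩ := h1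
  exact ⟨_, fun x hx => hx.1, hv, fun x hx y hy => hx.2.trans hy.2.symm⟩

theorem canon {M Z : Type} [LinearOrder M] (a : Z → M) (μ : M → Cardinal.{0})
    (h0 : ∀ α, ℵ₀ ≤ μ α) (h1 : ∀ α, #M ≤ μ α) (h2 : ∀ α, #{z | a z < α} ≤ μ α)
    (h3 : ∀ α, 2 ^ μ α < #{z | a z = α}) (C : Z → Z → ℕ) (hC : ∀ x y, C x y = C y x) :
    ∃ (B : M → Set Z) (D : M → M → ℕ), (∀ α β, D α β = D β α) ∧ (∀ α, μ α ≤ #(B α)) ∧
      (∀ α, ∀ x ∈ B α, a x = α) ∧ ∀ α β, α ≠ β → ∀ x ∈ B α, ∀ y ∈ B β, C x y = D α β := by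
  have ne : ∀ {μ : Cardinal.{0}} {T : Set Z}, 2 ^ μ < #T → ∃ x, x ∈ T := fun h =>
    nonempty_coe_sort.1 (mk_ne_zero_iff.1 (zero_le.trans_lt h).ne')
  choose B hB hB' hB'' using fun α => pig (h0 α) (h2 α) (h3 α) fun y x => C x.1 y
  choose p hp using fun α => ne (hB' α)
  choose E hE hE' hE'' using fun α => pig (h0 α) (h1 α) (hB' α) fun x β => C x (p β)
  choose q hq using fun α => ne (hE' α)
  have key : ∀ α β, α < β → ∀ x ∈ E α, ∀ y ∈ E β, C x y = C (q α) (q β) := by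
    intro α β h x hx y hy
    have e : ∀ x ∈ E α, ∀ y ∈ E β, C x y = C x (p β) := fun x hx y hy =>
      congrFun (hB'' β y (hE β hy) _ (hp β)) ⟨x, (hB α (hE α hx)).trans_lt h⟩
    rw [e x hx y hy, e _ (hq α) _ (hq β)]
    exact congrFun (hE'' α x hx _ (hq α)) β
  refine ⟨E, fun α β => C (q α) (q β), fun _ _ => hC _ _,
    fun α => ((cantor _).trans (hE' α)).le, fun α x hx => hB α (hE α hx),
    fun α β h x hx y hy => ?_⟩
  rcases lt_or_gt_of_ne h with h | h
  · exact key α β h x hx y hy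
  · rw [hC, key β α h y hy x hx, hC]

theorem core {M Z : Type} [LinearOrder M] [LinearOrder Z] [WellFoundedLT Z]
    (hM : ∀ s : Set M, #s ≤ ℵ₁ → ∃ b, ∀ x ∈ s, x < b) (a : Z → M) (ha : Monotone a)
    (μ : M → Cardinal.{0})
    (h0 : ∀ α, ℵ₀ ≤ μ α) (h1 : ∀ α, #M ≤ μ α) (h2 : ∀ α, #{z | a z < α} ≤ μ α)
    (h3 : ∀ α, 2 ^ μ α < #{z | a z = α}) (C : Z → Z → ℕ) (hC : ∀ x y, C x y = C y x) :
    ∃ (i : ℕ) (φ : Z ×ₗ ℕ → Z), φ.Injective ∧
      ∀ u v, u < v → ∃ w, u ≤ w ∧ w < v ∧ C (φ w) (φ v) = i := by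
  classical
  obtain ⟨B, D, hD, hB, hB', hBD⟩ := canon a μ h0 h1 h2 h3 C hC
  obtain ⟨r, i, h⟩ := index hM D hD
  choose s t hs ht hst hrs hi using fun α => h (max α r)
  let root : Z → Prop := fun z => ∀ y < z, a y < a z
  let bl : Z ×ₗ ℕ → M := fun x => if Odd (ofLex x).2 then s (a (ofLex x).1) else
    if root (ofLex x).1 ∧ (ofLex x).2 = 0 then r else t (a (ofLex x).1)
  have hroot : #{z | root z} ≤ #M := mk_le_of_injective (f := fun z => a z.1) fun x y e =>
    Subtype.ext (le_antisymm (not_lt.1 fun h => (x.2 _ h).ne' e) (not_lt.1 fun h => (y.2 _ h).ne e))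
  have h4 : ∀ b, ∃ e : Z ×ₗ ℕ → Z, InjOn e {x | bl x = b} ∧ ∀ x, bl x = b → e x ∈ B b := by
    intro b
    have : #{x | bl x = b} ≤ #(B b) := by
      refine (mk_le_mk_of_subset (t := toLex '' (({z | root z} ∪ {z | a z < b}) ×ˢ (univ : Set ℕ)))
        fun x hx => ⟨ofLex x, ⟨?_, trivial⟩, rfl⟩).trans (mk_image_le.trans (le_trans ?_ (hB b)))
      · simp only [mem_setOf_eq, bl] at hx
        split_ifs at hx with h5 h6
        · exact Or.inr (hx ▸ (le_max_left _ _).trans_lt (hs _))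
        · exact Or.inl h6.1
        · exact Or.inr (hx ▸ (le_max_left _ _).trans_lt (ht _))
      · rw [mk_setProd, mk_univ, mk_nat]
        exact (mul_le_mul' ((mk_union_le _ _).trans ((add_le_add (hroot.trans (h1 b)) (h2 b)).trans
          (add_eq_self (h0 b)).le)) (h0 b)).trans (mul_eq_self (h0 b)).le
    obtain ⟨e⟩ := this
    refine ⟨fun x => if h : bl x = b then e ⟨x, h⟩ else (ofLex x).1, fun x hx y hy h => ?_,
      fun x hx => ?_⟩
    · simp only [dif_pos (show bl x = b from hx), dif_pos (show bl y = b from hy)] at h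
      exact congrArg Subtype.val (e.injective (Subtype.ext h))
    · simp only [dif_pos hx]
      exact (e _).2
  choose e he he' using h4
  have h5 : ∀ w v, bl w ≠ bl v → D (bl w) (bl v) = i → C (e (bl w) w) (e (bl v) v) = i :=
    fun w v h h' => (hBD _ _ h _ (he' _ w rfl) _ (he' _ v rfl)).trans h'
  have h6 : ∀ α, s α ≠ r := fun α => ((le_max_right _ _).trans_lt (hs α)).ne'
  have h7 : ∀ (y z : Z) (m n : ℕ), Odd m → ¬ Odd n → (a y = a z ∨ (root z ∧ n = 0)) →
      bl (toLex (y, m)) ≠ bl (toLex (z, n)) ∧ D (bl (toLex (y, m))) (bl (toLex (z, n))) = i := by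
    intro y z m n hm hn h
    simp only [bl, ofLex_toLex, if_pos hm, if_neg hn]
    split_ifs with h'
    · exact ⟨h6 _, (hD _ _).trans (hrs _)⟩
    · rw [h.resolve_right h']
      exact ⟨hst _, hi _⟩
  refine ⟨i, fun x => e (bl x) x, fun x y h => ?_, fun u v huv => ?_⟩
  · have : bl x = bl y := by
      rw [← hB' _ _ (he' _ x rfl), ← hB' _ _ (he' _ y rfl)]
      exact congrArg a h
    simp only [this] at h
    exact he (bl y) this rfl h
  obtain ⟨⟨y, m⟩, rfl⟩ := toLex.surjective u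
  obtain ⟨⟨z, n⟩, rfl⟩ := toLex.surjective v
  rw [Prod.Lex.toLex_lt_toLex] at huv
  rcases n with _ | n
  · have hyz : y < z := huv.resolve_right fun h => Nat.not_lt_zero _ h.2
    by_cases h8 : a y = a z ∨ root z
    · have := h7 y z (2 * m + 1) 0 (by simp) (by simp) (h8.imp_right fun h => ⟨h, rfl⟩)
      exact ⟨toLex (y, 2 * m + 1), Prod.Lex.toLex_le_toLex.2 (Or.inr ⟨rfl, by simp; omega⟩),
        Prod.Lex.toLex_lt_toLex.2 (Or.inl hyz), h5 _ _ this.1 this.2⟩
    · simp only [root, not_or, not_forall, not_lt] at h8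
      obtain ⟨h8, x, hx, h9⟩ := h8
      have h10 : a x = a z := (ha hx.le).antisymm h9
      have := h7 x z 1 0 (by simp) (by simp) (Or.inl h10)
      exact ⟨toLex (x, 1), Prod.Lex.toLex_le_toLex.2 (Or.inl (not_le.1 fun h =>
        h8 ((ha hyz.le).antisymm (h10 ▸ ha h)))), Prod.Lex.toLex_lt_toLex.2 (Or.inl hx),
        h5 _ _ this.1 this.2⟩
  · refine ⟨toLex (z, n), Prod.Lex.toLex_le_toLex.2 (huv.imp_right fun h =>
      ⟨h.1, Nat.lt_succ_iff.1 h.2⟩), Prod.Lex.toLex_lt_toLex.2 (Or.inr ⟨rfl, n.lt_succ_self⟩), ?_⟩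
    by_cases hn : Odd n
    · have := h7 z z n (n + 1) hn (by simpa [Nat.odd_add_one] using hn) (Or.inl rfl)
      exact h5 _ _ this.1 this.2
    · have := h7 z z (n + 1) n (by simpa [Nat.odd_add_one] using hn) hn (Or.inl rfl)
      exact h5 _ _ this.1.symm ((hD _ _).trans this.2)

theorem result : InP (ℶ_ (ω_ 2)) := by
  refine ⟨aleph0_le_beth _, fun V hV c => ?_⟩
  have hreg : (ℵ_ 2 : Cardinal.{0}).IsRegular := by
    rw [← one_add_one_eq_two]; exact isRegular_aleph_add_one 1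
  let M : Type := (ω_ 2).ToType
  have hM2 : #M = ℵ_ 2 := by simp [M]
  have hM : ∀ s : Set M, #s ≤ ℵ₁ → ∃ b, ∀ x ∈ s, x < b := fun s hs => by
    have : ¬ IsCofinal s := fun h => by
      have h1 := Order.cof_le h
      rw [Ordinal.cof_toType, ← ord_aleph, hreg.cof_ord] at h1
      exact (aleph_lt_aleph.2 one_lt_two).not_ge (h1.trans hs)
    simpa only [IsCofinal, not_forall, not_exists, not_and, not_le] using this
  let o : M → Ordinal := fun α => (ToType.mk.symm α).1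
  have ho : StrictMono o := fun α β h => ToType.mk.symm.strictMono h
  let μ : M → Cardinal := fun α => ℶ_ (2 * o α + 2)
  let Z := Σ α : M, (ℶ_ (2 * o α + 2 + 1 + 1)).out
  have h1 : ∀ α, #M ≤ μ α := fun α =>
    hM2.le.trans ((aleph_le_beth 2).trans (beth_mono le_add_self))
  have h2 : ∀ α, #{z : Z | z.1 < α} ≤ μ α := fun α => by
    refine (mk_le_mk_of_subset (t := ⋃ β : Iio α, range (Sigma.mk β.1))
      fun z hz => mem_iUnion.2 ⟨⟨z.1, hz⟩, z.2, rfl⟩).trans ((mk_iUnion_le _).trans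
      ((mul_le_mul' ((mk_set_le _).trans (h1 α)) (ciSup_le' fun β => mk_range_le.trans ?_)).trans
        (mul_eq_self (aleph0_le_beth _)).le))
    rw [mk_out, add_assoc, one_add_one_eq_two, ← mul_add_one]
    exact beth_mono (by gcongr; exact Order.add_one_le_of_lt (ho β.2))
  have h3 : ∀ α, ℶ_ (2 * o α + 2 + 1 + 1) ≤ #{z : Z | z.1 = α} := fun α => by
    refine (mk_out _).ge.trans (mk_le_of_injective (f := fun x => ⟨⟨α, x⟩, rfl⟩) fun x y h => ?_)
    exact eq_of_heq (Sigma.mk.inj (Subtype.mk.inj h)).2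
  have hZ : #Z = ℶ_ (ω_ 2) := by
    have hl : Order.IsSuccLimit (ω_ 2) := isSuccLimit_omega 2
    refine le_antisymm ?_ ?_
    · rw [mk_sigma]
      refine (sum_le_mk_mul_iSup _).trans ((mul_le_mul' (hM2.le.trans ((aleph_le_beth 2).trans
        (beth_mono (hl.add_one_lt (hl.add_one_lt hl.pos) |>.le.trans' (by norm_num)))))
        (ciSup_le' fun α => ?_)).trans (mul_eq_self (aleph0_le_beth _)).le)
      have h2' : (2 : Ordinal) < ω_ 2 := (nat_lt_omega0 2).trans_le (omega0_le_omega 2)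
      rw [mk_out]
      exact beth_mono (hl.add_one_lt (hl.add_one_lt (isPrincipal_add_omega 2
        (isPrincipal_mul_omega 2 h2' (ToType.mk.symm α).2) h2'))).le
    · rw [beth_limit hl]
      refine ciSup_le' fun x => le_trans (beth_mono ?_) ((h3 (ToType.mk x)).trans (mk_set_le _))
      simp only [o, OrderIso.symm_apply_apply]
      exact (Ordinal.le_mul_right _ two_pos).trans (le_self_add.trans (le_self_add.trans le_self_add))
  obtain ⟨g⟩ := Cardinal.eq.1 (hZ.trans hV.symm)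
  obtain ⟨L, hL, ha⟩ : ∃ L : LinearOrder Z, WellFoundedLT Z ∧ Monotone (Sigma.fst : Z → M) := by
    obtain ⟨_, _⟩ := exists_wellOrder Z
    have hk : Function.Injective fun z : Z => toLex (z.1, z) := fun x y h => (Prod.mk.inj h).2
    have hw : WellFounded (InvImage (· < ·) fun z : Z => toLex (z.1, z)) :=
      InvImage.wf _ wellFounded_lt
    exact ⟨LinearOrder.lift' _ hk, @IsWellFounded.mk _ _ hw,
      fun x y h => Prod.Lex.monotone_fst _ _ h⟩
  obtain ⟨i, φ, hφ, h⟩ := core hM Sigma.fst ha μ (fun _ => aleph0_le_beth _) h1 h2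
    (fun α => by rw [← beth_add_one]; exact (beth_strictMono (lt_add_one _)).trans_le (h3 α))
    (fun x y => c s(g x, g y)) fun x y => by rw [Sym2.eq_swap]
  let e := Equiv.ofInjective _ (g.injective.comp hφ)
  refine ⟨i, range (g ∘ φ), ?_, fun p q => e.symm p < e.symm q,
    (RelEmbedding.preimage e.symm.toEmbedding (· < ·)).isWellOrder, fun v u huv => ?_⟩
  · rw [← mk_congr e, mk_congr toLex.symm, mk_prod, Cardinal.lift_id, Cardinal.lift_id, hZ, mk_nat]
    exact mul_eq_left (aleph0_le_beth _) (aleph0_le_beth _) aleph0_ne_zero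
  · obtain ⟨u, rfl⟩ := e.surjective u
    obtain ⟨v, rfl⟩ := e.surjective v
    simp only [Equiv.symm_apply_apply] at huv ⊢
    obtain ⟨w, h1, h2, h3⟩ := h u v huv
    exact ⟨e w, h1.eq_or_lt.imp (fun h => by rw [h]) (by simp), by simpa using h2, h3⟩

end Pool.Agent.Results.MP_ebc4cb_lc.Beth
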